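import Pool.Agent.Helper25_TD.Oracle

/-!
# Codes of oracle computations: substitution, translation into codes, monotonicity, use
(MP_f28000_lc, uniformly order preserving maps of r.e. sets)
-/

set_option autoImplicit false

open Nat.Partrec (Code)
open Pool.Agent.Helper25TD

namespace Pool.Agent.STL

/-- replace the oracle by the code `e` -/
def subst (e : OCode) : OCode → OCode
  | OCode.zero => OCode.zero
  | OCode.succ => OCode.succ
  | OCode.left => OCode.left
  | OCode.right => OCode.right
  | OCode.oracle => e
  | OCode.pair f h => OCode.pair (subst e f) (subst e h)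
  | OCode.comp f h => OCode.comp (subst e f) (subst e h)
  | OCode.prec f h => OCode.prec (subst e f) (subst e h)
  | OCode.rfind f => OCode.rfind (subst e f)

theorem eval_subst (g : ℕ →. ℕ) (e d : OCode) : eval g (subst e d) = eval (eval g e) d := by
  induction d with
  | zero => rfl
  | succ => rfl
  | left => rfl
  | right => rfl
  | oracle => rfl
  | pair f h ihf ihh =>
    funext n
    simp only [subst, eval, ihf, ihh]
  | comp f h ihf ihh =>
    funext n
    simp only [subst, eval, ihf, ihh]
  | prec f h ihf ihh =>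
    funext n
    simp only [subst, eval, ihf, ihh]
  | rfind f ihf =>
    funext n
    simp only [subst, eval, ihf]

/-- translation into a code of a partial recursive function, the oracle has the code `q` -/
def tr : OCode → Code → Code
  | OCode.zero => fun _ => Code.zero
  | OCode.succ => fun _ => Code.succ
  | OCode.left => fun _ => Code.left
  | OCode.right => fun _ => Code.right
  | OCode.oracle => fun q => q
  | OCode.pair f h => fun q => Code.pair (tr f q) (tr h q)
  | OCode.comp f h => fun q => Code.comp (tr f q) (tr h q)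
  | OCode.prec f h => fun q => Code.prec (tr f q) (tr h q)
  | OCode.rfind f => fun q =>
      Code.comp (Code.rfind' (tr f q)) (Code.pair (Code.pair Code.left Code.right) Code.zero)

theorem tr_eval (c : OCode) (q : Code) : Code.eval (tr c q) = eval (Code.eval q) c := by
  induction c with
  | zero =>
    funext n
    simp only [tr, eval, Code.eval]
    rfl
  | succ =>
    funext n
    simp only [tr, eval, Code.eval]
  | left =>
    funext n
    simp only [tr, eval, Code.eval]
    rfl
  | right =>
    funext n
    simp only [tr, eval, Code.eval]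
    rfl
  | oracle => rfl
  | pair f h ihf ihh =>
    funext n
    simp only [tr, eval, Code.eval, ihf, ihh, Seq.seq, Part.map_eq_map, Part.bind_map]
  | comp f h ihf ihh =>
    funext n
    simp only [tr, eval, Code.eval, ihf, ihh, Part.bind_eq_bind]
  | prec f h ihf ihh =>
    funext n
    simp only [tr, eval, Code.eval, ihf, ihh, Nat.unpaired, Part.bind_eq_bind]
  | rfind f ihf =>
    funext n
    have h0 : (pure 0 : ℕ →. ℕ) n = Part.some 0 := rfl
    have h1 : Code.eval (Code.pair (Code.pair Code.left Code.right) Code.zero) n =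
        Part.some (Nat.pair n 0) := by
      simp [Code.eval, Seq.seq, h0]
    simp only [tr, Code.eval, ihf, Part.bind_eq_bind]
    have h2 : (Code.pair (Code.pair Code.left Code.right) Code.zero).eval n =
        Part.some (Nat.pair n 0) := h1
    simp only [Code.eval] at h2
    rw [h2, Part.bind_some]
    simp only [Nat.unpaired, Nat.unpair_pair, eval, Nat.add_zero]
    simp [Part.map_id']

theorem tr_primrec (c : OCode) : Primrec (tr c) := by
  induction c with
  | zero => exact Primrec.const _
  | succ => exact Primrec.const _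
  | left => exact Primrec.const _
  | right => exact Primrec.const _
  | oracle => exact Primrec.id
  | pair f h ihf ihh => exact Code.primrec₂_pair.comp ihf ihh
  | comp f h ihf ihh => exact Code.primrec₂_comp.comp ihf ihh
  | prec f h ihf ihh => exact Code.primrec₂_prec.comp ihf ihh
  | rfind f ihf =>
    exact Code.primrec₂_comp.comp (Code.primrec_rfind'.comp ihf) (Primrec.const _)

/-- a computation succeeds with every oracle that gives more answers -/
theorem mono {g g' : ℕ →. ℕ} (hg : ∀ k v, v ∈ g k → v ∈ g' k) (c : OCode) :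
    ∀ n v, v ∈ eval g c n → v ∈ eval g' c n := by
  induction c with
  | zero => exact fun n v h => h
  | succ => exact fun n v h => h
  | left => exact fun n v h => h
  | right => exact fun n v h => h
  | oracle => exact hg
  | pair f h ihf ihh =>
    intro n v hv
    simp only [eval, Part.mem_bind_iff, Part.mem_map_iff] at hv ⊢
    obtain ⟨a, ha, b, hb, rfl⟩ := hv
    exact ⟨a, ihf n a ha, b, ihh n b hb, rfl⟩
  | comp f h ihf ihh =>
    intro n v hv
    simp only [eval, Part.mem_bind_iff] at hv ⊢
    obtain ⟨a, ha, hb⟩ := hv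
    exact ⟨a, ihh n a ha, ihf a v hb⟩
  | prec f h ihf ihh =>
    intro p
    simp only [eval]
    generalize (Nat.unpair p).1 = a
    generalize (Nat.unpair p).2 = n
    induction n with
    | zero =>
      intro v hv
      exact ihf a v hv
    | succ n ih =>
      intro v hv
      simp only [Part.mem_bind_iff] at hv ⊢
      obtain ⟨b, hb, hc⟩ := hv
      exact ⟨b, ih b hb, ihh _ v hc⟩
  | rfind f ihf =>
    intro a v hv
    have key : ∀ (g : ℕ →. ℕ) (j : ℕ) (b : Bool),
        b ∈ (fun n => (eval g f (Nat.pair a n)).map fun m => decide (m = 0)) j ↔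
          ∃ m, m ∈ eval g f (Nat.pair a j) ∧ decide (m = 0) = b := by
      intro g j b
      exact Part.mem_map_iff _
    change v ∈ Nat.rfind fun n => (eval g f (Nat.pair a n)).map fun m => decide (m = 0) at hv
    obtain ⟨h1, hlt⟩ := Nat.mem_rfind.mp hv
    obtain ⟨m, hm, hm0⟩ := (key g v true).mp h1
    change v ∈ Nat.rfind fun n => (eval g' f (Nat.pair a n)).map fun m => decide (m = 0)
    refine Nat.mem_rfind.mpr ⟨(key g' v true).mpr ⟨m, ihf _ m hm, hm0⟩, fun {j} hj => ?_⟩
    obtain ⟨b, hb, hb0⟩ := (key g j false).mp (hlt hj)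
    exact (key g' j false).mpr ⟨b, ihf _ b hb, hb0⟩

/-- the use principle for partial oracles -/
theorem use (x : ℕ → Bool) (c : OCode) : ∀ n v, v ∈ eval (chi x) c n →
    ∃ N, ∀ g : ℕ →. ℕ, (∀ i < N, (x i).toNat ∈ g i) → v ∈ eval g c n := by
  induction c with
  | zero => exact fun n v h => ⟨0, fun y _ => h⟩
  | succ => exact fun n v h => ⟨0, fun y _ => h⟩
  | left => exact fun n v h => ⟨0, fun y _ => h⟩
  | right => exact fun n v h => ⟨0, fun y _ => h⟩
  | oracle =>
    intro n v h
    refine ⟨n + 1, fun y hy => ?_⟩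
    have h1 : v = (x n).toNat := by
      simpa [eval, chi] using h
    rw [h1]
    exact hy n (Nat.lt_succ_self n)
  | pair f h ihf ihh =>
    intro n v hv
    simp only [eval, Part.mem_bind_iff, Part.mem_map_iff] at hv ⊢
    obtain ⟨a, ha, b, hb, rfl⟩ := hv
    obtain ⟨N1, h1⟩ := ihf n a ha
    obtain ⟨N2, h2⟩ := ihh n b hb
    exact ⟨max N1 N2, fun y hy =>
      ⟨a, h1 y fun i hi => hy i (lt_of_lt_of_le hi (le_max_left _ _)),
      b, h2 y fun i hi => hy i (lt_of_lt_of_le hi (le_max_right _ _)), rfl⟩⟩
  | comp f h ihf ihh =>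
    intro n v hv
    simp only [eval, Part.mem_bind_iff] at hv ⊢
    obtain ⟨a, ha, hb⟩ := hv
    obtain ⟨N1, h1⟩ := ihh n a ha
    obtain ⟨N2, h2⟩ := ihf a v hb
    exact ⟨max N1 N2, fun y hy =>
      ⟨a, h1 y fun i hi => hy i (lt_of_lt_of_le hi (le_max_left _ _)),
      h2 y fun i hi => hy i (lt_of_lt_of_le hi (le_max_right _ _))⟩⟩
  | prec f h ihf ihh =>
    intro p
    simp only [eval]
    generalize (Nat.unpair p).1 = a
    generalize (Nat.unpair p).2 = n
    induction n with
    | zero =>
      intro v hv
      exact ihf a v hv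
    | succ n ih =>
      intro v hv
      simp only [Part.mem_bind_iff] at hv ⊢
      obtain ⟨b, hb, hc⟩ := hv
      obtain ⟨N1, h1⟩ := ih b hb
      obtain ⟨N2, h2⟩ := ihh _ v hc
      exact ⟨max N1 N2, fun y hy =>
        ⟨b, h1 y fun i hi => hy i (lt_of_lt_of_le hi (le_max_left _ _)),
        h2 y fun i hi => hy i (lt_of_lt_of_le hi (le_max_right _ _))⟩⟩
  | rfind f ihf =>
    intro a v hv
    have key : ∀ (g : ℕ →. ℕ) (j : ℕ) (b : Bool),
        b ∈ (fun n => (eval g f (Nat.pair a n)).map fun m => decide (m = 0)) j ↔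
          ∃ m, m ∈ eval g f (Nat.pair a j) ∧ decide (m = 0) = b := by
      intro g j b
      exact Part.mem_map_iff _
    change v ∈ Nat.rfind fun n => (eval (chi x) f (Nat.pair a n)).map fun m => decide (m = 0) at hv
    obtain ⟨h1, hlt⟩ := Nat.mem_rfind.mp hv
    obtain ⟨m, hm, hm0⟩ := (key (chi x) v true).mp h1
    obtain ⟨N1, hN1⟩ := ihf _ m hm
    have h2 : ∀ k, k ≤ v → ∃ N, ∀ g : ℕ →. ℕ, (∀ i < N, (x i).toNat ∈ g i) → ∀ j < k,
        false ∈ (fun n => (eval g f (Nat.pair a n)).map fun m => decide (m = 0)) j := by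
      intro k
      induction k with
      | zero => exact fun _ => ⟨0, fun y _ j hj => absurd hj (Nat.not_lt_zero j)⟩
      | succ k ihk =>
        intro hk
        obtain ⟨N, hN⟩ := ihk (Nat.le_of_succ_le hk)
        obtain ⟨b, hb, hb0⟩ := (key (chi x) k false).mp (hlt hk)
        obtain ⟨N', hN'⟩ := ihf _ b hb
        refine ⟨max N N', fun y hy j hj => ?_⟩
        rcases Nat.lt_succ_iff_lt_or_eq.mp hj with hj | rfl
        · exact hN y (fun i hi => hy i (lt_of_lt_of_le hi (le_max_left _ _))) j hj
        · exact (key y j false).mpr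
            ⟨b, hN' y fun i hi => hy i (lt_of_lt_of_le hi (le_max_right _ _)), hb0⟩
    obtain ⟨N2, hN2⟩ := h2 v le_rfl
    refine ⟨max N1 N2, fun y hy => ?_⟩
    change v ∈ Nat.rfind fun n => (eval y f (Nat.pair a n)).map fun m => decide (m = 0)
    refine Nat.mem_rfind.mpr ⟨(key y v true).mpr
      ⟨m, hN1 y fun i hi => hy i (lt_of_lt_of_le hi (le_max_left _ _)), hm0⟩, fun {j} hj => ?_⟩
    exact hN2 y (fun i hi => hy i (lt_of_lt_of_le hi (le_max_right _ _))) j hj

end Pool.Agent.STL
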