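import Pool.Agent.Helper26_STL.Codes

/-!
# Iterating a functional uniformly (MP_f28000_lc)
-/

set_option autoImplicit false

open Nat.Partrec (Code)
open Pool.Agent.Helper25TD

namespace Pool.Agent.STL

/-- the code of the list of the first `n` bits of `x` -/
def pl (x : ℕ → Bool) (n : ℕ) : ℕ := Encodable.encode (pre x n)

theorem TR.pl (x : ℕ → Bool) : TR x (pl x) := by
  have hstep : Primrec fun m : ℕ => Encodable.encode
      (((Encodable.decode (α := List Bool) (Nat.unpair m).1).getD []) ++
        [decide ((Nat.unpair m).2 = 1)]) := by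
    refine Primrec.encode.comp (Primrec.list_append.comp ?_ ?_)
    · exact Primrec.option_getD.comp
        (Primrec.decode.comp (Primrec.fst.comp Primrec.unpair)) (Primrec.const [])
    · refine Primrec.list_cons.comp ?_ (Primrec.const [])
      have h : PrimrecPred fun m : ℕ => (Nat.unpair m).2 = 1 :=
        Primrec.eq.comp (Primrec.snd.comp Primrec.unpair) (Primrec.const 1)
      exact h.decide
  have h1 : TR x fun m => Encodable.encode
      (((Encodable.decode (α := List Bool) (Nat.unpair (Nat.unpair m).2).2).getD []) ++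
        [x (Nat.unpair (Nat.unpair m).2).1]) := by
    have h2 : TR x fun m => (x (Nat.unpair (Nat.unpair m).2).1).toNat :=
      (TR.of_le (TLE.refl x)).comp (TR.prim (Primrec.fst.comp (Primrec.unpair.comp
        (Primrec.snd.comp Primrec.unpair))))
    have h3 : TR x fun m => (Nat.unpair (Nat.unpair m).2).2 :=
      TR.prim (Primrec.snd.comp (Primrec.unpair.comp (Primrec.snd.comp Primrec.unpair)))
    have h4 := (TR.prim (x := x) hstep).comp (h3.pair h2)
    have h5 : ∀ b : Bool, decide (b.toNat = 1) = b := by decide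
    simpa [h5] using h4
  have h2 := (TR.prec (TR.prim (Primrec.const (Encodable.encode ([] : List Bool)))) h1).comp
    (TR.prim (Primrec₂.natPair.comp (Primrec.const 0) Primrec.id))
  simp only [Nat.unpair_pair, id] at h2
  have key : ∀ n : ℕ, (Nat.rec (Encodable.encode ([] : List Bool)) (fun k r =>
      Encodable.encode (((Encodable.decode (α := List Bool) r).getD []) ++ [x k])) n : ℕ) =
      Pool.Agent.STL.pl x n := by
    intro n
    induction n with
    | zero => rfl
    | succ n ih =>
      show Encodable.encode (((Encodable.decode (α := List Bool) _).getD []) ++ [x n]) = _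
      rw [ih]
      unfold Pool.Agent.STL.pl
      rw [Encodable.encodek, Option.getD_some, ← pre_succ]
  refine Nat.RecursiveIn.of_eq h2 fun n => ?_
  exact congrArg Part.some (key n)

/-- search for a converging computation -/
theorem tle_of_search {x y : ℕ → Bool} {T : ℕ → ℕ} (hT : Computable T)
    (hex : ∀ l, ∃ m t, T (Nat.pair (pl x m) (Nat.pair l t)) ≠ 0)
    (hval : ∀ l m t, T (Nat.pair (pl x m) (Nat.pair l t)) ≠ 0 →
      T (Nat.pair (pl x m) (Nat.pair l t)) = (y l).toNat + 1) : TLE y x := by
  classical
  have hex' : ∀ l, ∃ w : ℕ,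
      T (Nat.pair (pl x (Nat.unpair w).1) (Nat.pair l (Nat.unpair w).2)) ≠ 0 := by
    intro l
    obtain ⟨m, t, h⟩ := hex l
    exact ⟨Nat.pair m t, by simpa using h⟩
  let g : ℕ → ℕ := fun l => Nat.find (hex' l)
  have hTT : TR x T := Nat.Partrec.recursiveIn (Partrec.nat_iff.1 hT.partrec)
  have hcore : TR x fun w : ℕ =>
      T (Nat.pair (pl x (Nat.unpair (Nat.unpair w).2).1)
        (Nat.pair (Nat.unpair w).1 (Nat.unpair (Nat.unpair w).2).2)) := by
    have h1 : TR x fun w : ℕ => pl x (Nat.unpair (Nat.unpair w).2).1 :=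
      (TR.pl x).comp (TR.prim (Primrec.fst.comp (Primrec.unpair.comp
        (Primrec.snd.comp Primrec.unpair))))
    have h2 : TR x fun w : ℕ => (Nat.unpair w).1 := TR.prim (Primrec.fst.comp Primrec.unpair)
    have h3 : TR x fun w : ℕ => (Nat.unpair (Nat.unpair w).2).2 :=
      TR.prim (Primrec.snd.comp (Primrec.unpair.comp (Primrec.snd.comp Primrec.unpair)))
    exact hTT.comp (h1.pair (h2.pair h3))
  have hg : TR x g := by
    refine TR.rfind (f := fun w => 1 - T (Nat.pair (pl x (Nat.unpair (Nat.unpair w).2).1)
        (Nat.pair (Nat.unpair w).1 (Nat.unpair (Nat.unpair w).2).2))) ?_ ?_ ?_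
    · have h3 : TR x fun n => 1 - n :=
        TR.prim (Primrec.nat_sub.comp (Primrec.const 1) Primrec.id)
      exact h3.comp hcore
    · intro a
      have h4 := Nat.find_spec (hex' a)
      simp only [Nat.unpair_pair]
      have h5 : T (Nat.pair (pl x (Nat.unpair (g a)).1) (Nat.pair a (Nat.unpair (g a)).2)) ≠ 0 := h4
      omega
    · intro a n hn
      have h4 := Nat.find_min (hex' a) hn
      simp only [ne_eq, not_not] at h4
      simp only [Nat.unpair_pair, h4]
      omega
  refine TR.to_le ?_
  have h5 := hcore.comp ((TR.prim Primrec.id).pair hg)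
  have h6 : TR x fun n => n - 1 := TR.prim (Primrec.nat_sub.comp Primrec.id (Primrec.const 1))
  refine Nat.RecursiveIn.of_eq (h6.comp h5) fun l => ?_
  simp only [Nat.unpair_pair, id]
  have h7 : T (Nat.pair (pl x (Nat.unpair (g l)).1) (Nat.pair l (Nat.unpair (g l)).2)) ≠ 0 :=
    Nat.find_spec (hex' l)
  rw [hval _ _ _ h7]
  simp

/-- the partial oracle given by a finite list of bits -/
def orc (s : List Bool) : ℕ →. ℕ := fun k => ↑(s[k]?.map Bool.toNat)

theorem exists_orc_code : ∃ cs : List Bool → Code, Primrec cs ∧ ∀ s, Code.eval (cs s) = orc s := by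
  have h1 : Computable fun w : ℕ =>
      ((((Encodable.decode (α := List Bool) (Nat.unpair w).1).getD [])[(Nat.unpair w).2]?).map
        Bool.toNat : Option ℕ) := by
    refine Primrec.to_comp ?_
    refine Primrec.option_map ?_ ?_
    · exact Primrec.list_getElem?.comp (Primrec.option_getD.comp
        (Primrec.decode.comp (Primrec.fst.comp Primrec.unpair)) (Primrec.const []))
        (Primrec.snd.comp Primrec.unpair)
    · exact (Primrec.dom_finite Bool.toNat).comp Primrec.snd
  have h2 : Nat.Partrec fun w : ℕ => orc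
      ((Encodable.decode (α := List Bool) (Nat.unpair w).1).getD []) (Nat.unpair w).2 :=
    Partrec.nat_iff.1 (Computable.ofOption h1)
  obtain ⟨d, hd⟩ := Code.exists_code.1 h2
  refine ⟨fun s => Code.curry d (Encodable.encode s), ?_, fun s => ?_⟩
  · exact Code.primrec₂_curry.comp (Primrec.const d) Primrec.encode
  · funext k
    rw [Code.eval_curry, hd]
    simp

/-- **Iteration.** If the functional `a` maps `xs n` to `xs (n + 1)` and the functional `c` maps `xs n`
to `ys n` for all `n` then the join of the `ys n` is computable from `xs 0`. -/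
theorem iterate (xs ys : ℕ → ℕ → Bool) (a c : OCode)
    (ha : ∀ n, eval (chi (xs n)) a = chi (xs (n + 1)))
    (hc : ∀ n, eval (chi (xs n)) c = chi (ys n)) : TLE (jn ys) (xs 0) := by
  obtain ⟨cs, hcs, hcs2⟩ := exists_orc_code
  let Q : ℕ → List Bool → Code := fun n s => Nat.rec (cs s) (fun _ q => tr a q) n
  have hQ0 : ∀ s, Q 0 s = cs s := fun _ => rfl
  have hQs : ∀ n s, Q (n + 1) s = tr a (Q n s) := fun _ _ => rfl
  have hQ : Primrec fun p : ℕ × List Bool => Q p.1 p.2 := by
    have hh : Primrec₂ fun (_ : ℕ × List Bool) (p : ℕ × Code) => tr a p.2 :=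
      ((tr_primrec a).comp (Primrec.snd.comp Primrec.snd)).to₂
    exact (Primrec.nat_rec' (f := fun p : ℕ × List Bool => p.1) (g := fun p => cs p.2)
      Primrec.fst (hcs.comp Primrec.snd) hh).of_eq fun p => rfl
  -- soundness
  have hsound : ∀ n m k v, v ∈ Code.eval (Q n (pre (xs 0) m)) k → v ∈ chi (xs n) k := by
    intro n
    induction n with
    | zero =>
      intro m k v hv
      rw [hQ0, hcs2] at hv
      unfold orc at hv
      rw [Part.mem_coe] at hv
      obtain ⟨b, hb, rfl⟩ := Option.map_eq_some_iff.1 hv
      have hb2 : b = xs 0 k := by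
        unfold pre at hb
        rw [List.getElem?_map] at hb
        obtain ⟨j, hj, rfl⟩ := Option.map_eq_some_iff.1 hb
        obtain ⟨hj1, hj2⟩ := List.getElem?_eq_some_iff.1 hj
        rw [List.getElem_range] at hj2
        rw [hj2]
      rw [hb2]
      exact Part.mem_some _
    | succ n ih =>
      intro m k v hv
      rw [hQs, tr_eval] at hv
      have := mono (ih m) a k v hv
      rwa [ha] at this
  -- completeness
  have hcomp : ∀ n k, ∃ M, ∀ m, M ≤ m → (xs n k).toNat ∈ Code.eval (Q n (pre (xs 0) m)) k := by
    intro n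
    induction n with
    | zero =>
      intro k
      refine ⟨k + 1, fun m hm => ?_⟩
      rw [hQ0, hcs2]
      unfold orc
      rw [Part.mem_coe]
      refine Option.map_eq_some_iff.2 ⟨xs 0 k, ?_, rfl⟩
      unfold pre
      rw [List.getElem?_map]
      refine Option.map_eq_some_iff.2 ⟨k, ?_, rfl⟩
      exact List.getElem?_range (by omega)
    | succ n ih =>
      intro k
      have h1 : (xs (n + 1) k).toNat ∈ eval (chi (xs n)) a k := by
        rw [ha]
        exact Part.mem_some _
      obtain ⟨N, hN⟩ := use (xs n) a k _ h1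
      choose M hM using ih
      refine ⟨(Finset.range N).sup M, fun m hm => ?_⟩
      rw [hQs, tr_eval]
      refine hN _ fun i hi => hM i m ?_
      exact (Finset.le_sup (f := M) (Finset.mem_range.2 hi)).trans hm
  -- the search
  let T : ℕ → ℕ := fun w => ((Code.evaln (Nat.unpair (Nat.unpair w).2).2
    (tr c (Q (Nat.unpair (Nat.unpair (Nat.unpair w).2).1).1
      ((Encodable.decode (α := List Bool) (Nat.unpair w).1).getD [])))
    (Nat.unpair (Nat.unpair (Nat.unpair w).2).1).2).map Nat.succ).getD 0
  have hT : Primrec T := by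
    have p1 : Primrec fun w : ℕ => (Nat.unpair (Nat.unpair w).2).2 :=
      Primrec.snd.comp (Primrec.unpair.comp (Primrec.snd.comp Primrec.unpair))
    have p2 : Primrec fun w : ℕ => Nat.unpair (Nat.unpair (Nat.unpair w).2).1 :=
      Primrec.unpair.comp (Primrec.fst.comp (Primrec.unpair.comp
        (Primrec.snd.comp Primrec.unpair)))
    have p3 : Primrec fun w : ℕ => (Encodable.decode (α := List Bool) (Nat.unpair w).1).getD [] :=
      Primrec.option_getD.comp
        (Primrec.decode.comp (Primrec.fst.comp Primrec.unpair)) (Primrec.const [])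
    have p4 : Primrec fun w : ℕ => tr c (Q (Nat.unpair (Nat.unpair (Nat.unpair w).2).1).1
        ((Encodable.decode (α := List Bool) (Nat.unpair w).1).getD [])) :=
      (tr_primrec c).comp (hQ.comp ((Primrec.fst.comp p2).pair p3))
    refine Primrec.option_getD.comp (Primrec.option_map (Code.primrec_evaln.comp
      ((p1.pair p4).pair (Primrec.snd.comp p2))) ?_) (Primrec.const 0)
    exact (Primrec.succ.comp Primrec.snd).to₂
  have hTval : ∀ m l t, T (Nat.pair (pl (xs 0) m) (Nat.pair l t)) =
      ((Code.evaln t (tr c (Q (Nat.unpair l).1 (pre (xs 0) m))) (Nat.unpair l).2).map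
        Nat.succ).getD 0 := by
    intro m l t
    simp only [T, Nat.unpair_pair, pl, Encodable.encodek, Option.getD_some]
  refine tle_of_search (T := T) hT.to_comp ?_ ?_
  · intro l
    have h1 : (ys (Nat.unpair l).1 (Nat.unpair l).2).toNat ∈
        eval (chi (xs (Nat.unpair l).1)) c (Nat.unpair l).2 := by
      rw [hc]
      exact Part.mem_some _
    obtain ⟨N, hN⟩ := use (xs (Nat.unpair l).1) c _ _ h1
    choose M hM using hcomp (Nat.unpair l).1
    have h2 := hN (Code.eval (Q (Nat.unpair l).1 (pre (xs 0) ((Finset.range N).sup M))))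
      fun i hi => hM i _ (Finset.le_sup (f := M) (Finset.mem_range.2 hi))
    rw [← tr_eval, Code.evaln_complete] at h2
    obtain ⟨t, ht⟩ := h2
    refine ⟨(Finset.range N).sup M, t, ?_⟩
    rw [hTval, Option.mem_def.1 ht]
    simp
  · intro l m t h
    rw [hTval] at h ⊢
    cases hev : Code.evaln t (tr c (Q (Nat.unpair l).1 (pre (xs 0) m))) (Nat.unpair l).2 with
    | none =>
      rw [hev] at h
      simp at h
    | some v =>
      have h1 : v ∈ Code.eval (tr c (Q (Nat.unpair l).1 (pre (xs 0) m))) (Nat.unpair l).2 :=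
        Code.evaln_sound hev
      rw [tr_eval] at h1
      have h2 := mono (hsound (Nat.unpair l).1 m) c _ _ h1
      rw [hc] at h2
      have h3 : v = (ys (Nat.unpair l).1 (Nat.unpair l).2).toNat := Part.mem_some_iff.1 h2
      simp only [Option.map_some, Option.getD_some, h3]
      rfl

end Pool.Agent.STL
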