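import Pool.Agent.Helper26_STL.Iter
import Pool.Agent.Helper26_SQM.Core

/-!
# Uniformly order preserving maps of r.e. sets preserve the uniform reducibility of sequences
(MP_f28000_lc)
-/

set_option autoImplicit false

open Pool.Agent.Helper25TD Pool.Agent.SQM

namespace Pool.Agent.STL

/-- the evaluation of a code is recursive in the oracle -/
theorem eval_recursiveIn (g : ℕ →. ℕ) (c : OCode) : Nat.RecursiveIn {g} (eval g c) := by
  induction c with
  | zero => exact Nat.RecursiveIn.zero
  | succ => exact Nat.RecursiveIn.succ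
  | left => exact Nat.RecursiveIn.left
  | right => exact Nat.RecursiveIn.right
  | oracle => exact Nat.RecursiveIn.oracle _ (Set.mem_singleton _)
  | pair f h ihf ihh =>
    refine (Nat.RecursiveIn.pair ihf ihh).of_eq fun n => ?_
    simp only [eval, Seq.seq, Part.map_eq_map, Part.bind_map]
  | comp f h ihf ihh => exact Nat.RecursiveIn.comp ihf ihh
  | prec f h ihf ihh => exact Nat.RecursiveIn.prec ihf ihh
  | rfind f ihf => exact Nat.RecursiveIn.rfind ihf

/-- primitive recursive functions have codes which do not use the oracle -/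
theorem exists_pcode {f : ℕ → ℕ} (hf : Nat.Primrec f) :
    ∃ c : OCode, ∀ g, eval g c = fun n => Part.some (f n) := by
  induction hf with
  | zero => exact ⟨OCode.zero, fun g => rfl⟩
  | succ => exact ⟨OCode.succ, fun g => rfl⟩
  | left => exact ⟨OCode.left, fun g => rfl⟩
  | right => exact ⟨OCode.right, fun g => rfl⟩
  | pair _ _ ihf ihh =>
    obtain ⟨c, hc⟩ := ihf
    obtain ⟨d, hd⟩ := ihh
    refine ⟨OCode.pair c d, fun g => ?_⟩
    funext n
    simp only [eval, hc, hd, Part.bind_some, Part.map_some]
  | comp _ _ ihf ihh =>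
    obtain ⟨c, hc⟩ := ihf
    obtain ⟨d, hd⟩ := ihh
    refine ⟨OCode.comp c d, fun g => ?_⟩
    funext n
    simp only [eval, hc, hd, Part.bind_some]
  | prec _ _ ihf ihh =>
    obtain ⟨c, hc⟩ := ihf
    obtain ⟨d, hd⟩ := ihh
    refine ⟨OCode.prec c d, fun g => ?_⟩
    funext p
    simp only [eval, hc, hd, Nat.unpaired]
    generalize (Nat.unpair p).1 = a
    generalize (Nat.unpair p).2 = n
    induction n with
    | zero => rfl
    | succ n ih =>
      show Part.bind (Nat.rec _ _ n : Part ℕ) _ = _
      rw [ih, Part.bind_some]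

/-- one question to the oracle between primitive recursive computations -/
theorem exists_ask {h : ℕ → ℕ} {k : ℕ → ℕ → ℕ} (hh : Primrec h) (hk : Primrec₂ k) :
    ∃ c : OCode, ∀ x : ℕ → Bool, eval (chi x) c = fun n => Part.some (k n (x (h n)).toNat) := by
  obtain ⟨ch, hch⟩ := exists_pcode (Primrec.nat_iff.1 hh)
  obtain ⟨ci, hci⟩ := exists_pcode (Primrec.nat_iff.1 Primrec.id)
  have hk' : Primrec fun m : ℕ => k (Nat.unpair m).1 (Nat.unpair m).2 :=
    hk.comp (Primrec.fst.comp Primrec.unpair) (Primrec.snd.comp Primrec.unpair)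
  obtain ⟨ck, hck⟩ := exists_pcode (Primrec.nat_iff.1 hk')
  refine ⟨OCode.comp ck (OCode.pair ci (OCode.comp OCode.oracle ch)), fun x => ?_⟩
  funext n
  simp only [eval, hch, hci, hck, Part.bind_some, id]
  simp [chi]

/-- `1^n 0 H` -/
def sh (H : ℕ → Prop) : ℕ → ℕ → Prop
  | 0 => fun x => x ≠ 0 ∧ H (x - 1)
  | n + 1 => fun x => x = 0 ∨ sh H n (x - 1)

theorem sh_lt (H : ℕ → Prop) (n m : ℕ) (h : m < n) : sh H n m := by
  induction n generalizing m with
  | zero => omega
  | succ n ih =>
    by_cases hm : m = 0
    · exact Or.inl hm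
    · exact Or.inr (ih (m - 1) (by omega))

theorem sh_self (H : ℕ → Prop) (n : ℕ) : ¬ sh H n n := by
  induction n with
  | zero =>
    intro h
    exact h.1 rfl
  | succ n ih =>
    intro h
    rcases h with h | h
    · omega
    · rw [Nat.add_sub_cancel] at h
      exact ih h

theorem sh_add (H : ℕ → Prop) (n k : ℕ) : sh H n (n + 1 + k) ↔ H k := by
  induction n with
  | zero =>
    have h : 0 + 1 + k - 1 = k := by omega
    constructor
    · intro h1
      have h2 := h1.2
      rwa [h] at h2
    · intro h1
      refine ⟨by omega, ?_⟩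
      rwa [h]
  | succ n ih =>
    have h : n + 1 + 1 + k - 1 = n + 1 + k := by omega
    rw [← ih]
    constructor
    · intro h1
      rcases h1 with h1 | h1
      · omega
      · rwa [h] at h1
    · intro h1
      refine Or.inr ?_
      rwa [h]

theorem re_sh {H : ℕ → Prop} (hH : REPred H) (n : ℕ) : REPred (sh H n) := by
  induction n with
  | zero =>
    refine re_and (p := fun x => x ≠ 0) ?_ (re_comp hH Primrec.pred.to_comp)
    have h : PrimrecPred fun x : ℕ => x ≠ 0 :=
      (Primrec.eq.comp Primrec.id (Primrec.const 0)).not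
    exact h.computablePred.to_re
  | succ n ih =>
    have h1 : REPred fun x : ℕ => sh H n (x - 1) := re_comp ih Primrec.pred.to_comp
    have hb : Computable fun x : ℕ => decide (x = 0) :=
      (PrimrecPred.decide (Primrec.eq.comp Primrec.id (Primrec.const 0))).to_comp
    have h2 : Partrec fun x : ℕ => cond (decide (x = 0)) (Part.some ())
        (Part.assert (sh H n (x - 1)) fun _ => Part.some ()) :=
      Partrec.cond hb (Partrec.some.comp (Computable.const ())) h1
    refine h2.of_eq fun x => ?_
    by_cases hx : x = 0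
    · rw [Part.assert_pos (show sh H (n + 1) x from Or.inl hx)]
      simp [hx]
    · by_cases hx2 : sh H n (x - 1)
      · rw [Part.assert_pos (show sh H (n + 1) x from Or.inr hx2), Part.assert_pos hx2]
        simp
      · rw [Part.assert_neg (show ¬ sh H (n + 1) x from fun h => h.elim hx hx2),
          Part.assert_neg hx2]
        simp [hx]

/-- the join of a sequence of sets -/
def seqJoin (C : ℕ → ℕ → Prop) : ℕ → Prop := fun n => C (Nat.unpair n).1 (Nat.unpair n).2

/-- **Uniformly order preserving maps preserve the uniform reducibility of sequences.** If for every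
code `c` of an oracle computation there is a code `c'` such that `A = Φ_c(B)` implies
`F A = Φ_{c'}(F B)` for all r.e. sets `A`, `B`, then for every uniformly r.e. sequence `C` which is
uniformly computable from the r.e. set `H`, the sequence `F ∘ C` is uniformly computable from
`F H`. -/
theorem seq_of_uniform (F : (ℕ → Prop) → (ℕ → Prop))
    (hU : ∀ c : OCode, ∃ c' : OCode, ∀ A B : ℕ → Prop, REPred A → REPred B →
      eval (chi (bo B)) c = chi (bo A) → eval (chi (bo (F B))) c' = chi (bo (F A)))
    (C : ℕ → ℕ → Prop) (H : ℕ → Prop) (hC : REPred (seqJoin C)) (hH : REPred H)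
    (hCH : TLE (bo (seqJoin C)) (bo H)) :
    TLE (bo (seqJoin fun i => F (C i))) (bo (F H)) := by
  -- the shift
  obtain ⟨a, ha⟩ := exists_ask (h := fun n => n - 1) (k := fun n v => if n = 0 then 1 else v)
    Primrec.pred (Primrec.ite (Primrec.eq.comp Primrec.fst (Primrec.const 0)) (Primrec.const 1)
      Primrec.snd)
  have ha' : ∀ n, eval (chi (bo (sh H n))) a = chi (bo (sh H (n + 1))) := by
    intro n
    rw [ha]
    funext m
    unfold chi
    congr 1
    by_cases hm : m = 0
    · rw [if_pos hm, bo_eq_true.2 (show sh H (n + 1) m from Or.inl hm)]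
      rfl
    · rw [if_neg hm]
      congr 1
      refine bo_congr ⟨fun h => Or.inr h, fun h => ?_⟩
      exact h.resolve_left hm
  -- finding `n`
  have hn : ∀ n k, eval (chi (bo (sh H n))) (OCode.rfind (OCode.comp OCode.oracle OCode.right)) k =
      Part.some n := by
    intro n k
    have h1 : n ∈ Nat.rfind fun m =>
        (eval (chi (bo (sh H n))) (OCode.comp OCode.oracle OCode.right) (Nat.pair k m)).map
          fun v => decide (v = 0) := by
      have h2 : ∀ m, (eval (chi (bo (sh H n))) (OCode.comp OCode.oracle OCode.right)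
          (Nat.pair k m)).map (fun v => decide (v = 0)) =
          Part.some (decide ((bo (sh H n) m).toNat = 0)) := by
        intro m
        simp [eval, chi]
      refine Nat.mem_rfind.2 ⟨?_, fun {m} hm => ?_⟩
      · simp only [h2]
        have h3 : bo (sh H n) n = false := by
          rw [← Bool.not_eq_true, bo_eq_true]
          exact sh_self H n
        rw [h3]
        exact Part.mem_some _
      · simp only [h2]
        rw [bo_eq_true.2 (sh_lt H n m hm)]
        exact Part.mem_some _
    exact Part.eq_some_iff.2 h1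
  obtain ⟨ci, hci⟩ := exists_pcode (Primrec.nat_iff.1 Primrec.id)
  obtain ⟨cp, hcp⟩ := exists_pcode (f := fun m => (Nat.unpair m).1 + 1 + (Nat.unpair m).2)
    (Primrec.nat_iff.1 (Primrec.nat_add.comp (Primrec.succ.comp
      (Primrec.fst.comp Primrec.unpair)) (Primrec.snd.comp Primrec.unpair)))
  -- recovering `H`
  let e : OCode := OCode.comp OCode.oracle (OCode.comp cp
    (OCode.pair (OCode.rfind (OCode.comp OCode.oracle OCode.right)) ci))
  have he : ∀ n, eval (chi (bo (sh H n))) e = chi (bo H) := by
    intro n
    funext k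
    have h1 : eval (chi (bo (sh H n))) e k = chi (bo (sh H n)) (n + 1 + k) := by
      show (Part.bind (Part.bind (Part.bind (eval (chi (bo (sh H n)))
        (OCode.rfind (OCode.comp OCode.oracle OCode.right)) k) _) _) _) = _
      rw [hn]
      simp only [Part.bind_some, hci, hcp, Part.map_some, Nat.unpair_pair, id]
      rfl
    rw [h1]
    unfold chi
    rw [bo_congr (sh_add H n k)]
  -- the code of the sequence
  obtain ⟨d, hd⟩ := exists_code (RecursiveIn.iff_nat.1 hCH)
  have hd' : eval (chi (bo H)) d = chi (bo (seqJoin C)) := hd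
  let c : OCode := OCode.comp (subst e d)
    (OCode.pair (OCode.rfind (OCode.comp OCode.oracle OCode.right)) ci)
  have hc : ∀ n, eval (chi (bo (sh H n))) c = chi (bo (C n)) := by
    intro n
    funext k
    show (Part.bind (Part.bind (eval (chi (bo (sh H n)))
        (OCode.rfind (OCode.comp OCode.oracle OCode.right)) k) _) _) = _
    rw [hn]
    simp only [Part.bind_some, hci, Part.map_some, id]
    rw [eval_subst, he, hd']
    unfold chi
    have h1 : bo (seqJoin C) (Nat.pair n k) = bo (C n) k := by
      refine bo_congr ?_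
      unfold seqJoin
      rw [Nat.unpair_pair]
    rw [h1]
  -- the first step
  obtain ⟨z, hz⟩ := exists_ask (h := fun n => n - 1) (k := fun n v => if n = 0 then 0 else v)
    Primrec.pred (Primrec.ite (Primrec.eq.comp Primrec.fst (Primrec.const 0)) (Primrec.const 0)
      Primrec.snd)
  have hz' : eval (chi (bo H)) z = chi (bo (sh H 0)) := by
    rw [hz]
    funext m
    unfold chi
    congr 1
    by_cases hm : m = 0
    · rw [if_pos hm]
      have h3 : bo (sh H 0) m = false := by
        rw [← Bool.not_eq_true, bo_eq_true]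
        exact fun h => h.1 hm
      rw [h3]
      rfl
    · rw [if_neg hm]
      congr 1
      exact bo_congr ⟨fun h => ⟨hm, h⟩, fun h => h.2⟩
  obtain ⟨a', ha2⟩ := hU a
  obtain ⟨c', hc2⟩ := hU c
  obtain ⟨z', hz2⟩ := hU z
  have hCn : ∀ n, REPred (C n) := by
    intro n
    have h1 : Computable fun k : ℕ => Nat.pair n k :=
      (Primrec₂.natPair.comp (Primrec.const n) Primrec.id).to_comp
    have h2 := re_comp hC h1
    have h3 : (fun k => seqJoin C (Nat.pair n k)) = C n := by
      funext k
      unfold seqJoin
      rw [Nat.unpair_pair]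
    rwa [h3] at h2
  have h1 := iterate (fun n => bo (F (sh H n))) (fun n => bo (F (C n))) a' c'
    (fun n => ha2 _ _ (re_sh hH (n + 1)) (re_sh hH n) (ha' n))
    (fun n => hc2 _ _ (hCn n) (re_sh hH n) (hc n))
  have h2 : TLE (bo (F (sh H 0))) (bo (F H)) := by
    have h3 := hz2 _ _ (re_sh hH 0) hH hz'
    refine RecursiveIn.iff_nat.2 ?_
    have h4 := eval_recursiveIn (chi (bo (F H))) z'
    rw [h3] at h4
    exact h4
  have h3 : bo (seqJoin fun i => F (C i)) = jn fun n => bo (F (C n)) := by
    funext m
    unfold jn
    refine bo_congr ?_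
    unfold seqJoin
    exact Iff.rfl
  rw [h3]
  exact h1.trans h2

end Pool.Agent.STL
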