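import Pool.Agent.Helper26_STL.Main
import Pool.Agent.Helper25_UAU.Values

/-!
# Uniformly order preserving maps respect the uniform reducibility of sequences, in the terms of
`Pool.Agent.Helper25UAU.Up` (MP_f28000_lc)
-/

set_option autoImplicit false

open Pool.Agent.Helper25TD

namespace Pool.Agent.STL

/-- `F` is uniformly order preserving: for every code `c` there is a code `c'` such that `A = Φ_c(B)` implies
`F A = Φ_{c'}(F B)`, for all r.e. sets `A`, `B` -/
def Uop (F : (ℕ → Prop) → (ℕ → Prop)) : Prop :=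
  ∀ c : OCode, ∃ c' : OCode, ∀ A B : ℕ → Prop, REPred A → REPred B →
    eval (chi (Pool.Agent.EFA.bo B)) c = chi (Pool.Agent.EFA.bo A) →
    eval (chi (Pool.Agent.EFA.bo (F B))) c' = chi (Pool.Agent.EFA.bo (F A))

theorem bo_bo (A : ℕ → Prop) : Pool.Agent.EFA.bo A = Pool.Agent.SQM.bo A := by
  funext n
  rw [Bool.eq_iff_iff, Pool.Agent.SQM.bo_eq_true, Pool.Agent.Helper25UAU.bo_eq_true]

/-- uniformly order preserving maps respect the uniform reducibility of sequences -/
theorem up_of_uop {F : (ℕ → Prop) → (ℕ → Prop)} (hF : Uop F) : Pool.Agent.Helper25UAU.Up F := by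
  intro C H hC hH hle
  have hU : ∀ c : OCode, ∃ c' : OCode, ∀ A B : ℕ → Prop, REPred A → REPred B →
      eval (chi (Pool.Agent.SQM.bo B)) c = chi (Pool.Agent.SQM.bo A) →
      eval (chi (Pool.Agent.SQM.bo (F B))) c' = chi (Pool.Agent.SQM.bo (F A)) := by
    intro c
    obtain ⟨c', hc'⟩ := hF c
    refine ⟨c', fun A B hA hB h => ?_⟩
    have h1 := hc' A B hA hB
    rw [bo_bo, bo_bo, bo_bo, bo_bo] at h1
    exact h1 h
  unfold Pool.Agent.EFA.Le at hle ⊢
  rw [bo_bo, bo_bo] at hle ⊢
  exact seq_of_uniform F hU C H hC hH hle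

end Pool.Agent.STL
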